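import Pool.Agent.Run7.h585.PW.Fac

/-!
# Powerful parts of products of consecutive integers: choice and counting (helper585)
-/

set_option autoImplicit false

namespace Pool.Agent.Run7.h585.PW

open Finset Run7.h714.PP

theorem choose_prefix (u : ℕ → ℝ) (t : ℝ) (ht : 1 ≤ t) (l : ℕ) (h2 : ∀ i < l, u i ≤ t)
    (h1 : ∀ i < l, 1 ≤ u i) (h : t ≤ ∏ i ∈ range l, u i) :
    ∃ k ≤ l, t ≤ ∏ i ∈ range k, u i ∧ ∏ i ∈ range k, u i ≤ t ^ 2 := by
  induction l with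
  | zero => exact ⟨0, le_rfl, h, by rw [range_zero, prod_empty]; exact one_le_pow₀ ht⟩
  | succ l ih =>
    rcases le_or_gt t (∏ i ∈ range l, u i) with h3 | h3
    · obtain ⟨k, hk, h4, h5⟩ := ih (fun i hi => h2 i (by omega)) (fun i hi => h1 i (by omega)) h3
      exact ⟨k, by omega, h4, h5⟩
    · refine ⟨l + 1, le_rfl, h, ?_⟩
      rw [prod_range_succ, sq]
      exact mul_le_mul h3.le (h2 l (by omega)) (by linarith [h1 l (by omega)]) (by linarith)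

theorem choice {l : ℕ} {u : ℕ → ℕ} (hu : ∀ i < l, 1 ≤ u i) {M t : ℝ}
    (hM : ∀ i < l, (u i : ℝ) ≤ M) (ht : 1 ≤ t) (h : t ≤ ∏ i ∈ range l, (u i : ℝ)) :
    ∃ I ⊆ range l, t ≤ ∏ i ∈ I, (u i : ℝ) ∧ ∏ i ∈ I, (u i : ℝ) ≤ max M (t ^ 2) := by
  by_cases hex : ∃ i < l, t ≤ (u i : ℝ)
  · obtain ⟨i, hi, h1⟩ := hex
    refine ⟨{i}, by simpa using hi, by simpa using h1, ?_⟩
    rw [prod_singleton]
    exact (hM i hi).trans (le_max_left _ _)
  · push Not at hex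
    obtain ⟨k, hk, h4, h5⟩ := choose_prefix (fun i => (u i : ℝ)) t ht l (fun i hi => (hex i hi).le)
      (fun i hi => by exact_mod_cast hu i hi) h
    refine ⟨range k, fun i hi => ?_, h4, h5.trans (le_max_right _ _)⟩
    rw [mem_range] at hi ⊢
    omega

/-- the numbers up to `Y` with `d_i ∣ n + i` for all `i ≤ l` -/
theorem class_count {l Y : ℕ} {d : ℕ → ℕ} (S : Finset ℕ)
    (hS : ∀ n ∈ S, 0 < n ∧ n ≤ Y ∧ ∀ i ∈ range (l + 1), d i ∣ n + i) (hne : S.Nonempty) :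
    (S.card : ℝ) ≤ ((l.factorial : ℝ) ^ (l + 1)) * Y / (∏ i ∈ range (l + 1), (d i : ℝ)) + 1 := by
  obtain ⟨n₀, hn₀⟩ := hne
  obtain ⟨h0, h0Y, h0d⟩ := hS n₀ hn₀
  set L := (range (l + 1)).lcm d with hLdef
  have hd0 : ∀ i ∈ range (l + 1), d i ≠ 0 := fun i hi h => by
    have := h0d i hi
    rw [h, zero_dvd_iff] at this
    omega
  have hL : L ≠ 0 := by
    rw [hLdef, Ne, Finset.lcm_eq_zero_iff]
    rintro ⟨i, hi, h⟩
    exact hd0 i hi h
  have hcard : S.card ≤ Y / L + 1 := by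
    rw [← card_range (Y / L + 1)]
    refine card_le_card_of_injOn (fun n => n / L) (fun n hn => ?_) ?_
    · have := (hS n hn).2.1
      simp only [coe_range, Set.mem_Iio]
      exact Nat.lt_succ_of_le (Nat.div_le_div_right this)
    · intro n hn m hm hnm
      simp only at hnm
      have h1 : ∀ i ∈ range (l + 1), d i ∣ (((n : ℤ) - m).natAbs) := by
        intro i hi
        have a1 := (hS n hn).2.2 i hi
        have a2 := (hS m hm).2.2 i hi
        rw [← Int.natCast_dvd]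
        have b1 : ((d i : ℕ) : ℤ) ∣ (n : ℤ) + i := by exact_mod_cast a1
        have b2 : ((d i : ℕ) : ℤ) ∣ (m : ℤ) + i := by exact_mod_cast a2
        have b3 := dvd_sub b1 b2
        have e : ((n : ℤ) + i) - (m + i) = n - m := by ring
        rwa [e] at b3
      have h2 : L ∣ ((n : ℤ) - m).natAbs := Finset.lcm_dvd h1
      have h3 : ((n : ℤ) - m).natAbs < L := by
        have c1 := Nat.div_add_mod n L
        have c2 := Nat.div_add_mod m L
        have c3 := Nat.mod_lt n (Nat.pos_of_ne_zero hL)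
        have c4 := Nat.mod_lt m (Nat.pos_of_ne_zero hL)
        rw [hnm] at c1
        omega
      have h4 := Nat.eq_zero_of_dvd_of_lt h2 h3
      omega
  have hdvd := prod_dvd_lcm h0 h0d
  have hle : ∏ i ∈ range (l + 1), d i ≤ L * l.factorial ^ (l + 1) :=
    Nat.le_of_dvd (Nat.mul_pos (Nat.pos_of_ne_zero hL) (pow_pos (Nat.factorial_pos l) _)) hdvd
  have hleR : ∏ i ∈ range (l + 1), (d i : ℝ) ≤ L * (l.factorial : ℝ) ^ (l + 1) := by
    exact_mod_cast hle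
  have hP : (0 : ℝ) < ∏ i ∈ range (l + 1), (d i : ℝ) :=
    Finset.prod_pos fun i hi => by exact_mod_cast Nat.pos_of_ne_zero (hd0 i hi)
  have hLR : (0 : ℝ) < L := by exact_mod_cast Nat.pos_of_ne_zero hL
  have h5 : ((Y / L : ℕ) : ℝ) ≤ (Y : ℝ) / L := Nat.cast_div_le
  have h6 : (S.card : ℝ) ≤ ((Y / L : ℕ) : ℝ) + 1 := by exact_mod_cast hcard
  have h7 : (Y : ℝ) / L ≤ ((l.factorial : ℝ) ^ (l + 1)) * Y / (∏ i ∈ range (l + 1), (d i : ℝ)) := by
    rw [div_le_div_iff₀ hLR hP]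
    have := mul_le_mul_of_nonneg_left hleR (Nat.cast_nonneg (α := ℝ) Y)
    nlinarith
  linarith

/-- the sum over the squareful numbers -/
theorem full_sum {s : ℝ} (hs : 1 / 2 < s) : ∃ K : ℝ, 0 ≤ K ∧ ∀ T : Finset ℕ, (∀ u ∈ T, Full u) →
    ∑ u ∈ T, ((u : ℝ) ^ s)⁻¹ ≤ K := by
  have h1 : Summable fun n : ℕ => ((n : ℝ) ^ (2 * s))⁻¹ := Real.summable_nat_rpow_inv.2 (by linarith)
  have h2 : Summable fun n : ℕ => ((n : ℝ) ^ (3 * s))⁻¹ := Real.summable_nat_rpow_inv.2 (by linarith)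
  refine ⟨(∑' n : ℕ, ((n : ℝ) ^ (2 * s))⁻¹) * (∑' n : ℕ, ((n : ℝ) ^ (3 * s))⁻¹), by positivity,
    fun T hT => ?_⟩
  choose! a b ha hb hab using fun u (hu : u ∈ T) => full_rep (hT u hu)
  have hinj : Set.InjOn (fun u => (a u, b u)) T := by
    intro u hu v hv huv
    simp only [Prod.mk.injEq] at huv
    rw [← hab u hu, ← hab v hv, huv.1, huv.2]
  have hterm : ∀ u ∈ T, ((u : ℝ) ^ s)⁻¹ =
      (((a u : ℕ) : ℝ) ^ (2 * s))⁻¹ * (((b u : ℕ) : ℝ) ^ (3 * s))⁻¹ := by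
    intro u hu
    have e : (u : ℝ) = ((a u : ℕ) : ℝ) ^ 2 * ((b u : ℕ) : ℝ) ^ 3 := by
      rw [← hab u hu]; push_cast; rw [hab u hu]
    rw [← mul_inv]
    congr 1
    conv_lhs => rw [e]
    rw [Real.mul_rpow (by positivity) (by positivity), ← Real.rpow_natCast, ← Real.rpow_natCast,
      ← Real.rpow_mul (by positivity), ← Real.rpow_mul (by positivity)]
    norm_num
  rw [sum_congr rfl hterm]
  have h3 : ∑ u ∈ T, (((a u : ℕ) : ℝ) ^ (2 * s))⁻¹ * (((b u : ℕ) : ℝ) ^ (3 * s))⁻¹ =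
      ∑ x ∈ T.image (fun u => (a u, b u)), ((x.1 : ℝ) ^ (2 * s))⁻¹ * ((x.2 : ℝ) ^ (3 * s))⁻¹ := by
    rw [sum_image hinj]
  rw [h3]
  have h4 : T.image (fun u => (a u, b u)) ⊆ (T.image a) ×ˢ (T.image b) := by
    intro x hx
    rw [mem_image] at hx
    obtain ⟨u, hu, rfl⟩ := hx
    exact mem_product.2 ⟨mem_image_of_mem _ hu, mem_image_of_mem _ hu⟩
  calc _ ≤ ∑ x ∈ (T.image a) ×ˢ (T.image b), ((x.1 : ℝ) ^ (2 * s))⁻¹ * ((x.2 : ℝ) ^ (3 * s))⁻¹ :=
        sum_le_sum_of_subset_of_nonneg h4 fun _ _ _ => by positivity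
    _ = (∑ x ∈ T.image a, ((x : ℝ) ^ (2 * s))⁻¹) * (∑ x ∈ T.image b, ((x : ℝ) ^ (3 * s))⁻¹) := by
        rw [sum_mul_sum, sum_product]
    _ ≤ _ := mul_le_mul (h1.sum_le_tsum _ fun _ _ => by positivity)
        (h2.sum_le_tsum _ fun _ _ => by positivity) (sum_nonneg fun _ _ => by positivity)
        (tsum_nonneg fun _ => by positivity)

end Pool.Agent.Run7.h585.PW
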