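import Pool.Agent.Run7.h714.PP.Main

/-!
# Powerful parts of products of consecutive integers: divisibility (helper585)
-/

set_option autoImplicit false

namespace Pool.Agent.Run7.h585.PW

open Finset Run7.h714.PP

/-- squareful numbers -/
def Full (u : ℕ) : Prop := u ≠ 0 ∧ ∀ p, p.Prime → p ∣ u → p ^ 2 ∣ u

theorem powPart_fact (m p : ℕ) : (powPart m).factorization p =
    if 2 ≤ m.factorization p then m.factorization p else 0 := by
  unfold powPart
  rw [Nat.factorization_prod (fun q hq => by
    have := Finset.mem_filter.1 hq
    exact pow_ne_zero _ (Nat.pos_of_mem_primeFactors this.1).ne'), Finsupp.coe_finset_sum,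
    Finset.sum_apply]
  have h1 : ∀ q ∈ m.primeFactors.filter (fun q => 2 ≤ m.factorization q),
      (q ^ m.factorization q).factorization p = if q = p then m.factorization q else 0 := by
    intro q hq
    have h2 := Finset.mem_filter.1 hq
    rw [Nat.Prime.factorization_pow (Nat.prime_of_mem_primeFactors h2.1), Finsupp.single_apply]
  rw [Finset.sum_congr rfl h1, Finset.sum_ite_eq']
  by_cases hp : p ∈ m.primeFactors
  · simp only [Finset.mem_filter, hp, true_and]
  · have h0 : m.factorization p = 0 := by
      rw [← Finsupp.notMem_support_iff, Nat.support_factorization]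
      exact hp
    simp [h0]

theorem powPart_pos (m : ℕ) : 0 < powPart m := by
  unfold powPart
  refine Finset.prod_pos fun q hq => ?_
  have := Finset.mem_filter.1 hq
  exact pow_pos (Nat.pos_of_mem_primeFactors this.1) _

theorem powPart_dvd {m : ℕ} (hm : m ≠ 0) : powPart m ∣ m := by
  rw [← Nat.factorization_le_iff_dvd (powPart_pos m).ne' hm]
  intro p
  rw [powPart_fact]
  split_ifs
  · exact le_rfl
  · exact Nat.zero_le _

theorem powPart_full (m : ℕ) : Full (powPart m) := by
  refine ⟨(powPart_pos m).ne', fun p hp hpm => ?_⟩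
  rw [hp.pow_dvd_iff_le_factorization (powPart_pos m).ne', powPart_fact]
  have h1 : 1 ≤ (powPart m).factorization p := by
    rw [← hp.pow_dvd_iff_le_factorization (powPart_pos m).ne', pow_one]
    exact hpm
  rw [powPart_fact] at h1
  split_ifs at h1 ⊢ with h
  · exact h
  · omega

theorem full_rep {u : ℕ} (h : Full u) : ∃ a b : ℕ, 0 < a ∧ 0 < b ∧ a ^ 2 * b ^ 3 = u := by
  obtain ⟨b, a, hb, ha, he, hsq⟩ := Nat.sq_mul_squarefree_of_pos (Nat.pos_of_ne_zero h.1)
  have hba : b ∣ a := by
    rw [← Nat.factorization_le_iff_dvd hb.ne' ha.ne']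
    intro p
    have hle := hsq.natFactorization_le_one p
    rcases Nat.eq_zero_or_pos (b.factorization p) with h0 | h0
    · rw [h0]; exact Nat.zero_le _
    have hp : p.Prime := by
      by_contra hp
      rw [Nat.factorization_eq_zero_of_not_prime _ hp] at h0
      exact lt_irrefl 0 h0
    have hpb : p ∣ b := by
      have := (hp.pow_dvd_iff_le_factorization (k := 1) hb.ne').2 h0
      rwa [pow_one] at this
    have h1 : p ∣ u := by rw [← he]; exact hpb.mul_left _
    have h2 := h.2 p hp h1
    have hpa : p ∣ a := by
      obtain ⟨c, rfl⟩ := hpb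
      have h3 : ¬ p ∣ c := by
        intro h4
        have h5 : p * p ∣ p * c := mul_dvd_mul_left p h4
        exact hp.one_lt.ne' (Nat.isUnit_iff.1 (hsq p h5))
      have h4 : p ∣ a ^ 2 := by
        have h5 : p * p ∣ p * (a ^ 2 * c) := by
          have e : p * (a ^ 2 * c) = u := by rw [← he]; ring
          rw [e, ← sq]
          exact h2
        have h6 := Nat.dvd_of_mul_dvd_mul_left hp.pos h5
        exact ((hp.dvd_mul).1 h6).resolve_right h3
      exact hp.dvd_of_dvd_pow h4
    have h6 : 1 ≤ a.factorization p := by
      rw [← hp.pow_dvd_iff_le_factorization ha.ne', pow_one]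
      exact hpa
    omega
  obtain ⟨c, rfl⟩ := hba
  refine ⟨c, b, ?_, hb, by rw [← he]; ring⟩
  rcases Nat.eq_zero_or_pos c with h0 | h0
  · rw [h0, mul_zero] at ha
    exact absurd ha (lt_irrefl 0)
  · exact h0

theorem fact_pos_of_le {p l : ℕ} (hp : p.Prime) (h : p ≤ l) : 1 ≤ (l.factorial).factorization p := by
  rw [← hp.pow_dvd_iff_le_factorization (Nat.factorial_ne_zero l), pow_one]
  exact Nat.dvd_factorial hp.pos h

/-- prime powers dividing two of the numbers -/
theorem pow_dvd_fact {p v n l i j : ℕ} (hi : i ≤ l) (hj : j ≤ l) (hij : i ≠ j)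
    (h1 : p ^ v ∣ n + i) (h2 : p ^ v ∣ n + j) : p ^ v ∣ l.factorial := by
  rcases lt_or_gt_of_ne hij with h | h
  · have h3 : p ^ v ∣ j - i := by
      have := (Nat.dvd_sub h2 h1)
      have e : n + j - (n + i) = j - i := by omega
      rwa [e] at this
    exact h3.trans (Nat.dvd_factorial (by omega) (by omega))
  · have h3 : p ^ v ∣ i - j := by
      have := (Nat.dvd_sub h1 h2)
      have e : n + i - (n + j) = i - j := by omega
      rwa [e] at this
    exact h3.trans (Nat.dvd_factorial (by omega) (by omega))

/-- the powerful part of the product and the product of the powerful parts -/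
theorem powPart_prod {l n : ℕ} (hn : 0 < n) : powPart (prodConsec l n) ∣
    l.factorial ^ (l + 1) * ∏ i ∈ range (l + 1), powPart (n + i) := by
  have hne : ∀ i ∈ range (l + 1), n + i ≠ 0 := fun i _ => by omega
  have hne2 : ∀ i ∈ range (l + 1), powPart (n + i) ≠ 0 := fun i _ => (powPart_pos _).ne'
  rw [← Nat.factorization_le_iff_dvd (powPart_pos _).ne' (mul_ne_zero
    (pow_ne_zero _ (Nat.factorial_ne_zero l)) (Finset.prod_ne_zero_iff.2 hne2))]
  intro p
  rw [powPart_fact, Nat.factorization_mul (pow_ne_zero _ (Nat.factorial_ne_zero l))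
    (Finset.prod_ne_zero_iff.2 hne2), Nat.factorization_pow, Nat.factorization_prod hne2]
  unfold prodConsec
  rw [Nat.factorization_prod hne]
  simp only [Finsupp.coe_add, Finsupp.coe_smul, Pi.add_apply, Pi.smul_apply, Finsupp.coe_finset_sum,
    Finset.sum_apply, smul_eq_mul, powPart_fact]
  by_cases hp : p.Prime
  · rcases le_or_gt p l with hpl | hpl
    · have h1 := fact_pos_of_le hp hpl
      have h2 : ∑ i ∈ range (l + 1), (n + i).factorization p ≤ ∑ i ∈ range (l + 1),
          (1 + if 2 ≤ (n + i).factorization p then (n + i).factorization p else 0) := by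
        refine Finset.sum_le_sum fun i _ => ?_
        split_ifs <;> omega
      rw [Finset.sum_add_distrib, Finset.sum_const, card_range, smul_eq_mul, mul_one] at h2
      have h3 : l + 1 ≤ (l + 1) * l.factorial.factorization p := Nat.le_mul_of_pos_right _ h1
      split_ifs
      · omega
      · exact Nat.zero_le _
    · split_ifs with h2
      · by_cases hex : ∃ i ∈ range (l + 1), (n + i).factorization p ≠ 0
        · obtain ⟨i, hi, hi0⟩ := hex
          have huniq : ∀ j ∈ range (l + 1), j ≠ i → (n + j).factorization p = 0 := by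
            intro j hj hji
            by_contra h0
            have a1 : p ^ 1 ∣ n + i := by
              rw [hp.pow_dvd_iff_le_factorization (hne i hi)]; omega
            have a2 : p ^ 1 ∣ n + j := by
              rw [hp.pow_dvd_iff_le_factorization (hne j hj)]; omega
            have a3 := pow_dvd_fact (l := l) (by rw [mem_range] at hi; omega)
              (by rw [mem_range] at hj; omega) (Ne.symm hji) a1 a2
            rw [pow_one, hp.dvd_factorial] at a3
            omega
          have hs : ∑ j ∈ range (l + 1), (n + j).factorization p = (n + i).factorization p :=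
            Finset.sum_eq_single i huniq (fun h => absurd hi h)
          rw [hs] at h2 ⊢
          have h3 := Finset.single_le_sum (f := fun i => if 2 ≤ (n + i).factorization p then
            (n + i).factorization p else 0) (fun _ _ => Nat.zero_le _) hi
          simp only [h2, if_true] at h3
          omega
        · push Not at hex
          rw [Finset.sum_eq_zero hex] at h2
          omega
      · exact Nat.zero_le _
  · have : ∀ m : ℕ, m.factorization p = 0 := fun m => Nat.factorization_eq_zero_of_not_prime m hp
    simp [this]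

/-- the product of the moduli and their least common multiple -/
theorem prod_dvd_lcm {l n : ℕ} (hn : 0 < n) {d : ℕ → ℕ} (hd : ∀ i ∈ range (l + 1), d i ∣ n + i) :
    ∏ i ∈ range (l + 1), d i ∣ (range (l + 1)).lcm d * l.factorial ^ (l + 1) := by
  have hd0 : ∀ i ∈ range (l + 1), d i ≠ 0 := fun i hi h => by
    have := hd i hi
    rw [h, zero_dvd_iff] at this
    omega
  have hL : (range (l + 1)).lcm d ≠ 0 := by
    rw [Ne, Finset.lcm_eq_zero_iff]
    rintro ⟨i, hi, h⟩
    exact hd0 i hi h
  rw [← Nat.factorization_le_iff_dvd (Finset.prod_ne_zero_iff.2 hd0)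
    (mul_ne_zero hL (pow_ne_zero _ (Nat.factorial_ne_zero l)))]
  intro p
  rw [Nat.factorization_mul hL (pow_ne_zero _ (Nat.factorial_ne_zero l)), Nat.factorization_pow,
    Nat.factorization_prod hd0]
  simp only [Finsupp.coe_add, Finsupp.coe_smul, Pi.add_apply, Pi.smul_apply, Finsupp.coe_finset_sum,
    Finset.sum_apply, smul_eq_mul]
  by_cases hp : p.Prime
  · obtain ⟨i₀, hi₀, hmax⟩ := Finset.exists_max_image (range (l + 1)) (fun i => (d i).factorization p)
      ⟨0, by simp⟩
    have h1 : (d i₀).factorization p ≤ ((range (l + 1)).lcm d).factorization p :=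
      (Nat.factorization_le_iff_dvd (hd0 i₀ hi₀) hL).2 (Finset.dvd_lcm hi₀) p
    have h2 : ∀ i ∈ (range (l + 1)).erase i₀, (d i).factorization p ≤
        l.factorial.factorization p := by
      intro i hi
      rw [mem_erase] at hi
      rw [← hp.pow_dvd_iff_le_factorization (Nat.factorial_ne_zero l)]
      refine pow_dvd_fact (n := n) (i := i) (j := i₀) (by have := mem_range.1 hi.2; omega)
        (by have := mem_range.1 hi₀; omega) hi.1 ?_ ?_
      · exact (Nat.ordProj_dvd (d i) p).trans (hd i hi.2)
      · exact ((pow_dvd_pow p (hmax i hi.2)).trans (Nat.ordProj_dvd (d i₀) p)).trans (hd i₀ hi₀)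
    rw [← Finset.add_sum_erase _ _ hi₀]
    have h3 := Finset.sum_le_sum h2
    rw [Finset.sum_const, card_erase_of_mem hi₀, card_range, smul_eq_mul] at h3
    have h4 : (l + 1 - 1) * l.factorial.factorization p ≤ (l + 1) * l.factorial.factorization p :=
      Nat.mul_le_mul_right _ (by omega)
    omega
  · have : ∀ m : ℕ, m.factorization p = 0 := fun m => Nat.factorization_eq_zero_of_not_prime m hp
    simp [this]

end Pool.Agent.Run7.h585.PW
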