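import Pool.Agent.Run7.h585.PW.Low

/-!
# Powerful parts of products of consecutive integers: the three bounds (helper585)
-/

set_option autoImplicit false

namespace Pool.Agent.Run7.h585.PW

open Finset Run7.h714.PP

/-- The three bounds for a function `G` between the squares dividing `n` and the product of the
powerful parts of `n, …, n + l`. -/
theorem three_bounds (l : ℕ) {B : ℝ} (hB : 1 ≤ B) {G : ℕ → ℕ}
    (h1 : ∀ n, 1 ≤ n → (G n : ℝ) ≤ B * ∏ i ∈ range (l + 1), (powPart (n + i) : ℝ))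
    (h2 : ∀ n a, 1 ≤ n → a ^ 2 ∣ n → a ^ 2 ≤ G n) {ε : ℝ} (hε : 0 < ε) {θ : ℝ} (hθ : 0 ≤ θ)
    {S : ℕ → Finset ℕ} (hS : ∀ N n, n ∈ S N ↔ (1 ≤ n ∧ n ≤ N) ∧ (n : ℝ) ^ θ ≤ (G n : ℝ)) :
    (θ ≤ 2 / 3 → ∀ N : ℕ, 1 ≤ N → (N : ℝ) ^ (1 - θ / 2) / 32768 ≤ ((S N).card : ℝ)) ∧
    (∃ C : ℝ, ∀ N : ℕ, 1 ≤ N →
      ((S N).card : ℝ) ≤ C * (N : ℝ) ^ (max (1 - θ / 2) (2 / 3) + ε)) ∧
    (θ ≤ l + 1 → ∃ C : ℝ, ∀ N : ℕ, 1 ≤ N →
      ((S N).card : ℝ) ≤ C * (N : ℝ) ^ (1 - θ / (2 * (l + 1)) + ε)) := by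
  refine ⟨fun hθ1 N hN => ?_, ?_, fun hθ1 => ?_⟩
  · obtain ⟨T, hT, hc⟩ := except_low hθ hθ1 N hN
    refine hc.trans ?_
    have : T ⊆ S N := by
      intro n hn
      obtain ⟨a1, a2, a, a3, a4⟩ := hT n hn
      rw [hS]
      refine ⟨⟨a1, a2⟩, a3.trans ?_⟩
      exact_mod_cast h2 n a a1 a4
    exact_mod_cast card_le_card this
  · obtain ⟨C, hC, h⟩ := except_count l hB (θ := min θ (2 / 3)) (le_min hθ (by norm_num))
      (min_le_right _ _) hε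
    refine ⟨C, fun N hN => ?_⟩
    have e : 1 - min θ (2 / 3) / 2 + ε = max (1 - θ / 2) (2 / 3) + ε := by
      rcases le_total θ (2 / 3) with h3 | h3
      · rw [min_eq_left h3, max_eq_left (by linarith)]
      · rw [min_eq_right h3, max_eq_right (by linarith)]
        norm_num
    rw [← e]
    refine h N hN (S N) fun n hn => ?_
    obtain ⟨⟨a1, a2⟩, a3⟩ := (hS N n).1 hn
    refine ⟨a1, a2, ?_⟩
    have hn1 : (1 : ℝ) ≤ n := by exact_mod_cast a1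
    exact ((Real.rpow_le_rpow_of_exponent_le hn1 (min_le_left _ _)).trans a3).trans (h1 n a1)
  · obtain ⟨C, hC, h⟩ := except_max l hB hθ hθ1 hε
    refine ⟨C, fun N hN => h N hN (S N) fun n hn => ?_⟩
    obtain ⟨⟨a1, a2⟩, a3⟩ := (hS N n).1 hn
    exact ⟨a1, a2, a3.trans (h1 n a1)⟩

/-- the powerful part of the product -/
theorem powPart_le (l n : ℕ) (hn : 1 ≤ n) : (powPart (prodConsec l n) : ℝ) ≤
    ((l.factorial ^ (l + 1) : ℕ) : ℝ) * ∏ i ∈ range (l + 1), (powPart (n + i) : ℝ) := by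
  have h1 := powPart_prod (l := l) (n := n) (by omega)
  have h2 := Nat.le_of_dvd (Nat.mul_pos (pow_pos (Nat.factorial_pos l) _)
    (Finset.prod_pos fun i _ => powPart_pos _)) h1
  exact_mod_cast h2

theorem sq_le_powPart {m a : ℕ} (hm : m ≠ 0) (h : a ^ 2 ∣ m) : a ^ 2 ≤ powPart m :=
  le_powPart hm h fun _ hp hpr => pow_dvd_pow_of_dvd (hp.dvd_of_dvd_pow hpr) 2

/-- the bounds for `Q₂(n (n + 1) ⋯ (n + l))` -/
theorem bounds_prod (l : ℕ) {ε : ℝ} (hε : 0 < ε) {θ : ℝ} (hθ : 0 ≤ θ) {S : ℕ → Finset ℕ}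
    (hS : ∀ N n, n ∈ S N ↔ (1 ≤ n ∧ n ≤ N) ∧ (n : ℝ) ^ θ ≤ (powPart (prodConsec l n) : ℝ)) :
    (θ ≤ 2 / 3 → ∀ N : ℕ, 1 ≤ N → (N : ℝ) ^ (1 - θ / 2) / 32768 ≤ ((S N).card : ℝ)) ∧
    (∃ C : ℝ, ∀ N : ℕ, 1 ≤ N →
      ((S N).card : ℝ) ≤ C * (N : ℝ) ^ (max (1 - θ / 2) (2 / 3) + ε)) ∧
    (θ ≤ l + 1 → ∃ C : ℝ, ∀ N : ℕ, 1 ≤ N →
      ((S N).card : ℝ) ≤ C * (N : ℝ) ^ (1 - θ / (2 * (l + 1)) + ε)) := by
  refine three_bounds l (B := ((l.factorial ^ (l + 1) : ℕ) : ℝ))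
    (by exact_mod_cast Nat.one_le_pow _ _ (Nat.factorial_pos l))
    (G := fun n => powPart (prodConsec l n)) (fun n hn => powPart_le l n hn)
    (fun n a hn ha => ?_) hε hθ hS
  have h0 : prodConsec l n ≠ 0 := Finset.prod_ne_zero_iff.2 fun i _ => by omega
  refine sq_le_powPart h0 (ha.trans ?_)
  have : n + 0 ∣ prodConsec l n := Finset.dvd_prod_of_mem (fun i => n + i) (by simp)
  simpa using this

/-- the bounds for the product of the powerful parts -/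
theorem bounds_parts (l : ℕ) {ε : ℝ} (hε : 0 < ε) {θ : ℝ} (hθ : 0 ≤ θ) {S : ℕ → Finset ℕ}
    (hS : ∀ N n, n ∈ S N ↔ (1 ≤ n ∧ n ≤ N) ∧
      (n : ℝ) ^ θ ≤ ((∏ i ∈ range (l + 1), powPart (n + i) : ℕ) : ℝ)) :
    (θ ≤ 2 / 3 → ∀ N : ℕ, 1 ≤ N → (N : ℝ) ^ (1 - θ / 2) / 32768 ≤ ((S N).card : ℝ)) ∧
    (∃ C : ℝ, ∀ N : ℕ, 1 ≤ N →
      ((S N).card : ℝ) ≤ C * (N : ℝ) ^ (max (1 - θ / 2) (2 / 3) + ε)) ∧
    (θ ≤ l + 1 → ∃ C : ℝ, ∀ N : ℕ, 1 ≤ N →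
      ((S N).card : ℝ) ≤ C * (N : ℝ) ^ (1 - θ / (2 * (l + 1)) + ε)) := by
  refine three_bounds l (B := 1) le_rfl (G := fun n => ∏ i ∈ range (l + 1), powPart (n + i))
    (fun n _ => by push_cast; rw [one_mul]) (fun n a hn ha => ?_) hε hθ hS
  have h1 : a ^ 2 ≤ powPart (n + 0) := sq_le_powPart (by omega) (by simpa using ha)
  refine h1.trans ?_
  exact Finset.single_le_prod' (f := fun i => powPart (n + i)) (fun i _ => powPart_pos _)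
    (by simp)

end Pool.Agent.Run7.h585.PW
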