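import Pool.Agent.Run7.h585.PW.Main

/-!
# Powerful parts of products of consecutive integers: many `n` with a large powerful part (helper585)
-/

set_option autoImplicit false

namespace Pool.Agent.Run7.h585.PW

open Finset Run7.h714.PP

theorem sum_inv_sq (M : ℕ) : ∑ d ∈ Icc 2 M, (1 : ℝ) / (d : ℝ) ^ 2 ≤ 3 / 4 := by
  rcases lt_or_ge M 2 with h | h
  · rw [Icc_eq_empty (by omega)]
    norm_num
  · have h1 : ∑ d ∈ Icc 2 M, (1 : ℝ) / (d : ℝ) ^ 2 ≤ 3 / 4 - 1 / M := by
      induction M, h using Nat.le_induction with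
      | base => norm_num
      | succ n hn ih =>
        rw [Finset.sum_Icc_succ_top (by omega)]
        have hn0 : (0 : ℝ) < n := by
          have : 0 < n := by omega
          exact_mod_cast this
        have h2 : (1 : ℝ) / ((n + 1 : ℕ) : ℝ) ^ 2 ≤ 1 / n - 1 / ((n + 1 : ℕ) : ℝ) := by
          push_cast
          rw [div_sub_div _ _ hn0.ne' (by positivity), div_le_div_iff₀ (by positivity)
            (by positivity)]
          nlinarith
        linarith
    have : (0 : ℝ) ≤ 1 / M := by positivity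
    linarith

theorem sqfree_count (M : ℕ) : (M : ℝ) / 4 ≤ (((Icc 1 M).filter Squarefree).card : ℝ) := by
  classical
  have h1 : (Icc 1 M).filter (fun m => ¬ Squarefree m) ⊆
      (Icc 2 M).biUnion (fun d => (Icc 1 (M / d ^ 2)).image (fun q => d ^ 2 * q)) := by
    intro m hm
    rw [mem_filter, mem_Icc] at hm
    obtain ⟨⟨hm1, hm2⟩, hs⟩ := hm
    unfold Squarefree at hs
    push Not at hs
    obtain ⟨d, ⟨q, hq⟩, hdu⟩ := hs
    rw [Nat.isUnit_iff] at hdu
    have hd0 : d ≠ 0 := by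
      rintro rfl
      simp at hq
      omega
    have hq0 : q ≠ 0 := by
      rintro rfl
      simp at hq
      omega
    rw [mem_biUnion]
    refine ⟨d, mem_Icc.2 ⟨by omega, ?_⟩, mem_image.2 ⟨q, mem_Icc.2 ⟨by omega, ?_⟩, ?_⟩⟩
    · have : d ≤ m := Nat.le_of_dvd hm1 ⟨d * q, by rw [hq]; ring⟩
      omega
    · rw [Nat.le_div_iff_mul_le (by positivity)]
      have : q * d ^ 2 = m := by rw [hq]; ring
      omega
    · rw [hq]; ring
  have h2 : (((Icc 1 M).filter (fun m => ¬ Squarefree m)).card : ℝ) ≤ (M : ℝ) * (3 / 4) := by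
    calc (((Icc 1 M).filter (fun m => ¬ Squarefree m)).card : ℝ)
        ≤ ((∑ d ∈ Icc 2 M, (M / d ^ 2) : ℕ) : ℝ) := by
          have := (card_le_card h1).trans card_biUnion_le
          refine Nat.cast_le.2 (this.trans (sum_le_sum fun d _ => ?_))
          exact card_image_le.trans (by rw [Nat.card_Icc, Nat.add_sub_cancel])
      _ = ∑ d ∈ Icc 2 M, ((M / d ^ 2 : ℕ) : ℝ) := by push_cast; rfl
      _ ≤ ∑ d ∈ Icc 2 M, (M : ℝ) * (1 / (d : ℝ) ^ 2) := sum_le_sum fun d _ => by
          have := @Nat.cast_div_le ℝ _ _ _ M (d ^ 2)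
          push_cast at this
          rw [mul_one_div]
          exact this
      _ = (M : ℝ) * ∑ d ∈ Icc 2 M, (1 : ℝ) / (d : ℝ) ^ 2 := by rw [mul_sum]
      _ ≤ _ := mul_le_mul_of_nonneg_left (sum_inv_sq M) (Nat.cast_nonneg M)
  have h3 : ((Icc 1 M).filter Squarefree).card +
      ((Icc 1 M).filter (fun m => ¬ Squarefree m)).card = M := by
    rw [Finset.card_filter_add_card_filter_not, Nat.card_Icc]
    omega
  have h4 : (((Icc 1 M).filter Squarefree).card : ℝ) +
      (((Icc 1 M).filter (fun m => ¬ Squarefree m)).card : ℝ) = M := by exact_mod_cast h3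
  linarith

theorem sq_mul_inj {a b m k : ℕ} (ha : a ≠ 0) (hb : b ≠ 0) (hm : Squarefree m)
    (hk : Squarefree k) (h : a ^ 2 * m = b ^ 2 * k) : a = b ∧ m = k := by
  have hm0 := hm.ne_zero
  have hk0 := hk.ne_zero
  have hmk : m = k := by
    refine Nat.eq_of_factorization_eq hm0 hk0 fun p => ?_
    have h1 : (a ^ 2 * m).factorization p = (b ^ 2 * k).factorization p := by rw [h]
    rw [Nat.factorization_mul (pow_ne_zero _ ha) hm0, Nat.factorization_mul (pow_ne_zero _ hb) hk0,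
      Nat.factorization_pow, Nat.factorization_pow] at h1
    simp only [Finsupp.coe_add, Finsupp.coe_smul, Pi.add_apply, Pi.smul_apply, smul_eq_mul] at h1
    have h2 := hm.natFactorization_le_one p
    have h3 := hk.natFactorization_le_one p
    omega
  subst hmk
  have h4 := Nat.eq_of_mul_eq_mul_right (Nat.pos_of_ne_zero hm0) h
  exact ⟨Nat.pow_left_injective two_ne_zero h4, rfl⟩

theorem low_count (N X : ℕ) (hX : 1 ≤ X) : ∃ S : Finset ℕ,
    (∀ n ∈ S, 1 ≤ n ∧ n ≤ N ∧ ∃ a, X ≤ a ∧ a ^ 2 ∣ n) ∧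
      (X : ℝ) * (((N / (4 * X ^ 2) : ℕ) : ℝ) / 4) ≤ S.card := by
  classical
  refine ⟨((Ico X (2 * X)) ×ˢ (Icc 1 (N / (4 * X ^ 2))).filter Squarefree).image
    (fun p => p.1 ^ 2 * p.2), ?_, ?_⟩
  · intro n hn
    rw [mem_image] at hn
    obtain ⟨⟨a, m⟩, hp, rfl⟩ := hn
    rw [mem_product, mem_filter, mem_Ico, mem_Icc] at hp
    obtain ⟨⟨ha1, ha2⟩, ⟨hm1, hm2⟩, hms⟩ := hp
    simp only at ha1 ha2 hm1 hm2 hms ⊢
    refine ⟨Nat.mul_pos (pow_pos (by omega) 2) hm1, ?_, a, ha1, dvd_mul_right _ _⟩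
    rw [Nat.le_div_iff_mul_le (by positivity)] at hm2
    have h1 : a ^ 2 ≤ 4 * X ^ 2 := by nlinarith
    calc a ^ 2 * m ≤ 4 * X ^ 2 * m := Nat.mul_le_mul_right m h1
      _ = m * (4 * X ^ 2) := by ring
      _ ≤ N := hm2
  · rw [card_image_of_injOn, card_product, Nat.card_Ico]
    · have e : 2 * X - X = X := by omega
      rw [e]
      push_cast
      exact mul_le_mul_of_nonneg_left (by simpa using sqfree_count (N / (4 * X ^ 2)))
        (Nat.cast_nonneg X)
    · rintro ⟨a, m⟩ h1 ⟨b, k⟩ h2 h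
      simp only [coe_product, Set.mem_prod, coe_Ico, Set.mem_Ico, mem_coe, mem_filter, mem_Icc]
        at h1 h2 h
      obtain ⟨h3, h4⟩ := sq_mul_inj (by omega) (by omega) h1.2.2 h2.2.2 h
      rw [h3, h4]

theorem except_low {θ : ℝ} (hθ0 : 0 ≤ θ) (hθ : θ ≤ 2 / 3) (N : ℕ) (hN : 1 ≤ N) :
    ∃ S : Finset ℕ, (∀ n ∈ S, 1 ≤ n ∧ n ≤ N ∧ ∃ a : ℕ, (n : ℝ) ^ θ ≤ ((a ^ 2 : ℕ) : ℝ) ∧ a ^ 2 ∣ n) ∧
      (N : ℝ) ^ (1 - θ / 2) / 32768 ≤ S.card := by
  have hN1 : (1 : ℝ) ≤ N := by exact_mod_cast hN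
  have hN0 : (0 : ℝ) < N := by linarith
  rcases lt_or_ge N 32768 with h | h
  · refine ⟨{1}, ?_, ?_⟩
    · intro n hn
      rw [mem_singleton] at hn
      subst hn
      exact ⟨le_rfl, hN, 1, by simp, by simp⟩
    · rw [card_singleton, Nat.cast_one, div_le_one (by norm_num)]
      calc (N : ℝ) ^ (1 - θ / 2) ≤ (N : ℝ) ^ (1 : ℝ) :=
            Real.rpow_le_rpow_of_exponent_le hN1 (by linarith)
        _ = N := Real.rpow_one _
        _ ≤ 32768 := by exact_mod_cast h.le
  · set y : ℝ := (N : ℝ) ^ (θ / 2) with hy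
    have hy1 : 1 ≤ y := Real.one_le_rpow hN1 (by linarith)
    set X : ℕ := ⌈y⌉₊ with hXdef
    have hyX : y ≤ X := Nat.le_ceil y
    have hX2 : (X : ℝ) ≤ 2 * y := by
      have := Nat.ceil_lt_add_one (by linarith : 0 ≤ y)
      rw [← hXdef] at this
      linarith
    have hX1 : (1 : ℝ) ≤ X := hy1.trans hyX
    have hX0 : 1 ≤ X := by exact_mod_cast hX1
    obtain ⟨S, hS, hcard⟩ := low_count N X hX0
    refine ⟨S, fun n hn => ?_, ?_⟩
    · obtain ⟨h1, h2, a, ha, had⟩ := hS n hn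
      refine ⟨h1, h2, a, ?_, had⟩
      have haR : (X : ℝ) ≤ a := by exact_mod_cast ha
      calc (n : ℝ) ^ θ ≤ (N : ℝ) ^ θ :=
            Real.rpow_le_rpow (Nat.cast_nonneg n) (by exact_mod_cast h2) hθ0
        _ = y ^ 2 := by
            rw [hy, ← Real.rpow_natCast, ← Real.rpow_mul hN0.le]
            congr 1
            push_cast
            ring
        _ ≤ (a : ℝ) ^ 2 := pow_le_pow_left₀ (by linarith) (hyX.trans haR) 2
        _ = _ := by push_cast; rfl
    · refine le_trans ?_ hcard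
      have hNθ : y ^ 2 * 32 ≤ N := by
        have e1 : y ^ 2 = (N : ℝ) ^ θ := by
          rw [hy, ← Real.rpow_natCast, ← Real.rpow_mul hN0.le]
          congr 1
          push_cast
          ring
        have e2 : (32 : ℝ) ≤ (N : ℝ) ^ (1 - θ) := by
          have h3 : (32768 : ℝ) ≤ N := by exact_mod_cast h
          have h4 : (32 : ℝ) = (32768 : ℝ) ^ ((1 : ℝ) / 3) := by
            rw [show (32768 : ℝ) = (32 : ℝ) ^ (3 : ℝ) by norm_num, ← Real.rpow_mul (by norm_num)]
            norm_num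
          calc (32 : ℝ) = (32768 : ℝ) ^ ((1 : ℝ) / 3) := h4
            _ ≤ (N : ℝ) ^ ((1 : ℝ) / 3) := Real.rpow_le_rpow (by norm_num) h3 (by norm_num)
            _ ≤ _ := Real.rpow_le_rpow_of_exponent_le hN1 (by linarith)
        calc y ^ 2 * 32 ≤ (N : ℝ) ^ θ * (N : ℝ) ^ (1 - θ) := by
              rw [e1]
              exact mul_le_mul_of_nonneg_left e2 (by positivity)
          _ = N := by
              rw [← Real.rpow_add hN0]
              have : θ + (1 - θ) = 1 := by ring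
              rw [this, Real.rpow_one]
      have hX3 : (X : ℝ) ^ 2 * 8 ≤ N := by nlinarith
      have hfl : (N : ℝ) / (8 * X ^ 2) ≤ ((N / (4 * X ^ 2) : ℕ) : ℝ) := by
        have h5 := Nat.lt_succ_floor ((N : ℝ) / ((4 * X ^ 2 : ℕ) : ℝ))
        rw [Nat.floor_div_eq_div] at h5
        have h6 : (N : ℝ) / ((4 * X ^ 2 : ℕ) : ℝ) = 2 * ((N : ℝ) / (8 * X ^ 2)) := by
          push_cast
          field_simp
          ring
        have h7 : 1 ≤ (N : ℝ) / (8 * X ^ 2) := by
          rw [le_div_iff₀ (by positivity)]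
          linarith
        rw [h6] at h5
        push_cast at h5 ⊢
        linarith
      calc (N : ℝ) ^ (1 - θ / 2) / 32768 ≤ (N : ℝ) ^ (1 - θ / 2) / 64 := by
            refine div_le_div_of_nonneg_left (by positivity) (by norm_num) (by norm_num)
        _ = N / (64 * y) := by
            rw [Real.rpow_sub hN0, Real.rpow_one, ← hy]
            field_simp
        _ ≤ N / (32 * X) := by
            refine div_le_div_of_nonneg_left hN0.le (by positivity) (by linarith)
        _ = X * ((N : ℝ) / (8 * X ^ 2) / 4) := by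
            field_simp
            ring
        _ ≤ _ := by
            refine mul_le_mul_of_nonneg_left ?_ (by positivity)
            exact div_le_div_of_nonneg_right hfl (by norm_num)

end Pool.Agent.Run7.h585.PW
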