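import Pool.Agent.Run7.h585.PW.Cnt

/-!
# Powerful parts of products of consecutive integers: the exceptional set (helper585)
-/

set_option autoImplicit false

namespace Pool.Agent.Run7.h585.PW

open Finset Run7.h714.PP

theorem real_ineq {Y N D B θ δ m F : ℝ} (hY : 1 ≤ Y) (hYN : Y ≤ N) (hD : 1 ≤ D) (hB : 1 ≤ B)
    (hθ0 : 0 ≤ θ) (hθ : θ ≤ 1) (hδ : 0 < δ) (hδ1 : δ ≤ 1 / 4) (hm : 1 ≤ m) (hF : 0 ≤ F)
    (h1 : Y ^ θ ≤ B * D) (h2 : D ≤ m * Y ^ (2 - θ)) :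
    F * Y / D + 1 ≤ (F * B + m) * N ^ (1 - θ / 2 + 2 * δ) * (D ^ (1 / 2 + δ))⁻¹ := by
  have hN : 1 ≤ N := hY.trans hYN
  have hD0 : 0 < D := by linarith
  have hY0 : 0 < Y := by linarith
  have hDs : 0 < D ^ (1 / 2 + δ) := Real.rpow_pos_of_pos hD0 _
  have a1 : D ^ (1 / 2 + δ) ≤ m * N ^ (1 - θ / 2 + 2 * δ) := by
    calc D ^ (1 / 2 + δ) ≤ (m * Y ^ (2 - θ)) ^ (1 / 2 + δ) :=
          Real.rpow_le_rpow hD0.le h2 (by linarith)
      _ = m ^ (1 / 2 + δ) * Y ^ ((2 - θ) * (1 / 2 + δ)) := by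
          rw [Real.mul_rpow (by linarith) (Real.rpow_nonneg hY0.le _), ← Real.rpow_mul hY0.le]
      _ ≤ m ^ (1 : ℝ) * N ^ (1 - θ / 2 + 2 * δ) := by
          refine mul_le_mul (Real.rpow_le_rpow_of_exponent_le hm (by linarith)) ?_
            (Real.rpow_nonneg hY0.le _) (by positivity)
          calc Y ^ ((2 - θ) * (1 / 2 + δ)) ≤ N ^ ((2 - θ) * (1 / 2 + δ)) :=
                Real.rpow_le_rpow hY0.le hYN (by nlinarith)
            _ ≤ _ := Real.rpow_le_rpow_of_exponent_le hN (by nlinarith)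
      _ = _ := by rw [Real.rpow_one]
  have a2 : 1 ≤ m * N ^ (1 - θ / 2 + 2 * δ) * (D ^ (1 / 2 + δ))⁻¹ := by
    rw [← div_eq_mul_inv, le_div_iff₀ hDs, one_mul]
    exact a1
  have b1 : Y ≤ B * N ^ (1 - θ / 2 + 2 * δ) * D ^ (1 / 2 - δ) := by
    calc Y = Y ^ (1 - θ * (1 / 2 - δ)) * (Y ^ θ) ^ (1 / 2 - δ) := by
          rw [← Real.rpow_mul hY0.le, ← Real.rpow_add hY0]
          conv_lhs => rw [← Real.rpow_one Y]
          congr 1
          ring
      _ ≤ N ^ (1 - θ / 2 + 2 * δ) * (B * D) ^ (1 / 2 - δ) := by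
          refine mul_le_mul ?_ (Real.rpow_le_rpow (Real.rpow_nonneg hY0.le _) h1 (by linarith))
            (Real.rpow_nonneg (Real.rpow_nonneg hY0.le _) _) (by positivity)
          calc Y ^ (1 - θ * (1 / 2 - δ)) ≤ N ^ (1 - θ * (1 / 2 - δ)) :=
                Real.rpow_le_rpow hY0.le hYN (by nlinarith)
            _ ≤ _ := Real.rpow_le_rpow_of_exponent_le hN (by nlinarith)
      _ = N ^ (1 - θ / 2 + 2 * δ) * (B ^ (1 / 2 - δ) * D ^ (1 / 2 - δ)) := by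
          rw [Real.mul_rpow (by linarith) hD0.le]
      _ ≤ N ^ (1 - θ / 2 + 2 * δ) * (B ^ (1 : ℝ) * D ^ (1 / 2 - δ)) := by
          refine mul_le_mul_of_nonneg_left ?_ (by positivity)
          exact mul_le_mul_of_nonneg_right (Real.rpow_le_rpow_of_exponent_le hB (by linarith))
            (by positivity)
      _ = _ := by rw [Real.rpow_one]; ring
  have b2 : Y / D ≤ B * N ^ (1 - θ / 2 + 2 * δ) * (D ^ (1 / 2 + δ))⁻¹ := by
    rw [← div_eq_mul_inv, div_le_div_iff₀ hD0 hDs]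
    calc Y * D ^ (1 / 2 + δ) ≤ B * N ^ (1 - θ / 2 + 2 * δ) * D ^ (1 / 2 - δ) * D ^ (1 / 2 + δ) :=
          mul_le_mul_of_nonneg_right b1 hDs.le
      _ = B * N ^ (1 - θ / 2 + 2 * δ) * D := by
          rw [mul_assoc, ← Real.rpow_add hD0]
          have : 1 / 2 - δ + (1 / 2 + δ) = 1 := by ring
          rw [this, Real.rpow_one]
  calc F * Y / D + 1 = F * (Y / D) + 1 := by ring
    _ ≤ F * (B * N ^ (1 - θ / 2 + 2 * δ) * (D ^ (1 / 2 + δ))⁻¹) +
        m * N ^ (1 - θ / 2 + 2 * δ) * (D ^ (1 / 2 + δ))⁻¹ :=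
        add_le_add (mul_le_mul_of_nonneg_left b2 hF) a2
    _ = _ := by ring

/-- the choice of the factors for one `n` -/
theorem choice_n {l n : ℕ} {B θ : ℝ} (hB : 1 ≤ B) (hθ0 : 0 ≤ θ) (hθ : θ ≤ 2 / 3) (hn : 1 ≤ n)
    (h : (n : ℝ) ^ θ ≤ B * ∏ i ∈ range (l + 1), (powPart (n + i) : ℝ)) :
    ∃ I ⊆ range (l + 1), (n : ℝ) ^ θ ≤ B * ∏ i ∈ I, (powPart (n + i) : ℝ) ∧
      ∏ i ∈ I, (powPart (n + i) : ℝ) ≤ (l + 1) * (n : ℝ) ^ (2 - θ) := by
  have hn1 : (1 : ℝ) ≤ n := by exact_mod_cast hn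
  have hB0 : 0 < B := by linarith
  have hl1 : (1 : ℝ) ≤ (l : ℝ) + 1 := by linarith [Nat.cast_nonneg (α := ℝ) l]
  have h1 : ∀ i < l + 1, 1 ≤ powPart (n + i) := fun i _ => powPart_pos _
  have h2 : ∀ i < l + 1, (powPart (n + i) : ℝ) ≤ (l + 1) * (n : ℝ) ^ (2 - θ) := by
    intro i hi
    have a1 : powPart (n + i) ≤ n + i := Nat.le_of_dvd (by omega) (powPart_dvd (by omega))
    have a2 : n + i ≤ (l + 1) * n := by nlinarith
    calc (powPart (n + i) : ℝ) ≤ ((l : ℝ) + 1) * n := by exact_mod_cast a1.trans a2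
      _ ≤ (l + 1) * (n : ℝ) ^ (2 - θ) := by
        refine mul_le_mul_of_nonneg_left ?_ (by linarith)
        calc (n : ℝ) = (n : ℝ) ^ (1 : ℝ) := (Real.rpow_one _).symm
          _ ≤ _ := Real.rpow_le_rpow_of_exponent_le hn1 (by linarith)
  have hprod : (1 : ℝ) ≤ ∏ i ∈ range (l + 1), (powPart (n + i) : ℝ) := by
    have : 1 ≤ ∏ i ∈ range (l + 1), powPart (n + i) :=
      Finset.one_le_prod' fun i hi => h1 i (mem_range.1 hi)
    exact_mod_cast this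
  have ht : max 1 ((n : ℝ) ^ θ / B) ≤ ∏ i ∈ range (l + 1), (powPart (n + i) : ℝ) := by
    refine max_le hprod ?_
    rw [div_le_iff₀ hB0, mul_comm]
    exact h
  obtain ⟨I, hI, h3, h4⟩ := choice h1 h2 (le_max_left _ _) ht
  refine ⟨I, hI, ?_, h4.trans (max_le le_rfl ?_)⟩
  · have := (le_max_right _ _).trans h3
    rw [div_le_iff₀ hB0, mul_comm] at this
    exact this
  · have a1 : max 1 ((n : ℝ) ^ θ / B) ≤ (n : ℝ) ^ θ := by
      refine max_le (Real.one_le_rpow hn1 hθ0) ?_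
      exact div_le_self (by positivity) hB
    have a2 : (max 1 ((n : ℝ) ^ θ / B)) ^ 2 ≤ ((n : ℝ) ^ θ) ^ 2 :=
      pow_le_pow_left₀ (le_max_of_le_left zero_le_one) a1 2
    calc (max 1 ((n : ℝ) ^ θ / B)) ^ 2 ≤ ((n : ℝ) ^ θ) ^ 2 := a2
      _ = (n : ℝ) ^ (θ * 2) := by
        rw [Real.rpow_mul (by linarith), ← Real.rpow_natCast]
        norm_num
      _ ≤ 1 * (n : ℝ) ^ (2 - θ) := by
        rw [one_mul]
        exact Real.rpow_le_rpow_of_exponent_le hn1 (by linarith)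
      _ ≤ _ := mul_le_mul_of_nonneg_right hl1 (by positivity)

theorem full_one : Full 1 := ⟨one_ne_zero, fun p hp h => by
  rw [Nat.dvd_one] at h
  exact absurd h hp.one_lt.ne'⟩

theorem except_gen (l : ℕ) {B θ ε : ℝ} (hB : 1 ≤ B) (hθ0 : 0 ≤ θ) (hθ : θ ≤ 1)
    (hε : 0 < ε) : ∃ C : ℝ, 0 ≤ C ∧ ∀ N : ℕ, 1 ≤ N → ∀ S : Finset ℕ,
      (∀ n ∈ S, 1 ≤ n ∧ n ≤ N ∧ ∃ I ⊆ range (l + 1),
        (n : ℝ) ^ θ ≤ B * ∏ i ∈ I, (powPart (n + i) : ℝ) ∧
        ∏ i ∈ I, (powPart (n + i) : ℝ) ≤ (l + 1) * (n : ℝ) ^ (2 - θ)) →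
      (S.card : ℝ) ≤ C * (N : ℝ) ^ (1 - θ / 2 + ε) := by
  classical
  obtain ⟨δ, hδ, hδε, hδ1⟩ : ∃ δ : ℝ, 0 < δ ∧ 2 * δ ≤ ε ∧ δ ≤ 1 / 4 :=
    ⟨min (ε / 2) (1 / 4), lt_min (by linarith) (by norm_num),
      by linarith [min_le_left (ε / 2) (1 / 4 : ℝ)], min_le_right _ _⟩
  obtain ⟨K, hK0, hK⟩ := full_sum (s := 1 / 2 + δ) (by linarith)
  set F : ℝ := (l.factorial : ℝ) ^ (l + 1) with hF
  have hF0 : 0 ≤ F := by positivity
  have hB00 : 0 ≤ B := by linarith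
  refine ⟨(F * B + (l + 1)) * K ^ (l + 1), by positivity, fun N hN S hS => ?_⟩
  have hN1 : (1 : ℝ) ≤ N := by exact_mod_cast hN
  choose! I hI hI1 hI2 using fun n (hn : n ∈ S) => (hS n hn).2.2
  -- the tuple of `n`
  let τ : ℕ → Fin (l + 1) → ℕ := fun n i => if (i : ℕ) ∈ I n then powPart (n + i) else 1
  let A : Finset ℕ := (Icc 1 (N + l)).filter Full
  let T : Finset (Fin (l + 1) → ℕ) := Fintype.piFinset fun _ => A
  have hτ : ∀ n ∈ S, τ n ∈ T := by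
    intro n hn
    rw [Fintype.mem_piFinset]
    intro i
    obtain ⟨h1, h2, -⟩ := hS n hn
    simp only [A, mem_filter, mem_Icc, τ]
    have hi := i.2
    split_ifs
    · refine ⟨⟨powPart_pos _, ?_⟩, powPart_full _⟩
      have := Nat.le_of_dvd (by omega) (powPart_dvd (m := n + i) (by omega))
      omega
    · exact ⟨⟨le_rfl, by omega⟩, full_one⟩
  have hprodτ : ∀ n ∈ S, ∏ i : Fin (l + 1), (τ n i : ℝ) = ∏ i ∈ I n, (powPart (n + i) : ℝ) := by
    intro n hn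
    have h1 : ∏ i : Fin (l + 1), (τ n i : ℝ) =
        ∏ i ∈ range (l + 1), (if i ∈ I n then (powPart (n + i) : ℝ) else 1) := by
      rw [Finset.prod_range]
      refine Finset.prod_congr rfl fun i _ => ?_
      simp only [τ]
      split_ifs <;> simp
    rw [h1, Finset.prod_ite_mem, Finset.inter_eq_right.2 (hI n hn)]
  have hfib : ∀ x ∈ T, ((S.filter fun n => τ n = x).card : ℝ) ≤
      (F * B + (l + 1)) * (N : ℝ) ^ (1 - θ / 2 + 2 * δ) *
        ∏ i, (((x i : ℕ) : ℝ) ^ (1 / 2 + δ))⁻¹ := by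
    intro x hx
    rcases (S.filter fun n => τ n = x).eq_empty_or_nonempty with h0 | hne
    · rw [h0, card_empty, Nat.cast_zero]
      have : 0 ≤ ∏ i, (((x i : ℕ) : ℝ) ^ (1 / 2 + δ))⁻¹ :=
        Finset.prod_nonneg fun i _ => by positivity
      have : 0 ≤ B := by linarith
      positivity
    · set Y := (S.filter fun n => τ n = x).max' hne with hYdef
      have hYmem := (S.filter fun n => τ n = x).max'_mem hne
      rw [← hYdef, mem_filter] at hYmem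
      obtain ⟨hYS, hYx⟩ := hYmem
      let d : ℕ → ℕ := fun i => if h : i < l + 1 then x ⟨i, h⟩ else 1
      have hd : ∏ i ∈ range (l + 1), (d i : ℝ) = ∏ i : Fin (l + 1), (x i : ℝ) := by
        rw [Finset.prod_range]
        refine Finset.prod_congr rfl fun i _ => ?_
        simp only [d, dif_pos i.2]
      have hcount := class_count (l := l) (Y := Y) (d := d) (S.filter fun n => τ n = x) (by
        intro n hn
        have hle := Finset.le_max' _ n hn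
        rw [mem_filter] at hn
        obtain ⟨hnS, hnx⟩ := hn
        refine ⟨(hS n hnS).1, hle, fun i hi => ?_⟩
        have hi' := mem_range.1 hi
        have hdi : d i = τ n ⟨i, hi'⟩ := by
          simp only [d, dif_pos hi', hnx]
        rw [hdi]
        simp only [τ]
        have := (hS n hnS).1
        split_ifs
        · exact powPart_dvd (by omega)
        · exact one_dvd _) hne
      rw [hd] at hcount
      have hDY : ∏ i : Fin (l + 1), (x i : ℝ) = ∏ i ∈ I Y, (powPart (Y + i) : ℝ) := by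
        rw [← hprodτ Y hYS, hYx]
      have hD1 : (1 : ℝ) ≤ ∏ i : Fin (l + 1), (x i : ℝ) := by
        have h1 : 1 ≤ ∏ i : Fin (l + 1), x i := Finset.one_le_prod' fun i _ => by
          have := Fintype.mem_piFinset.1 hx i
          simp only [A, mem_filter, mem_Icc] at this
          exact this.1.1
        exact_mod_cast h1
      have hpw : ∏ i, (((x i : ℕ) : ℝ) ^ (1 / 2 + δ))⁻¹ =
          ((∏ i : Fin (l + 1), (x i : ℝ)) ^ (1 / 2 + δ))⁻¹ := by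
        rw [Finset.prod_inv_distrib, Real.finsetProd_rpow _ _ (fun i _ => Nat.cast_nonneg _)]
      rw [hpw]
      refine hcount.trans ?_
      refine real_ineq (Y := (Y : ℝ)) (by exact_mod_cast (hS Y hYS).1)
        (by exact_mod_cast (hS Y hYS).2.1) hD1 hB hθ0 hθ hδ hδ1
        (by linarith [Nat.cast_nonneg (α := ℝ) l]) hF0 ?_ ?_
      · rw [hDY]
        exact hI1 Y hYS
      · rw [hDY]
        exact hI2 Y hYS
  have hsum : (S.card : ℝ) = ∑ x ∈ T, ((S.filter fun n => τ n = x).card : ℝ) := by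
    rw [card_eq_sum_card_fiberwise (f := τ) (t := T) (fun n hn => hτ n hn)]
    push_cast
    rfl
  have hB0 : 0 ≤ B := by linarith
  rw [hsum]
  calc _ ≤ ∑ x ∈ T, (F * B + (l + 1)) * (N : ℝ) ^ (1 - θ / 2 + 2 * δ) *
        ∏ i, (((x i : ℕ) : ℝ) ^ (1 / 2 + δ))⁻¹ := sum_le_sum hfib
    _ = (F * B + (l + 1)) * (N : ℝ) ^ (1 - θ / 2 + 2 * δ) *
        ∏ _i : Fin (l + 1), ∑ u ∈ A, ((u : ℝ) ^ (1 / 2 + δ))⁻¹ := by
        rw [← mul_sum]
        congr 1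
        exact (Finset.prod_univ_sum (fun _ => A) fun _ u => ((u : ℝ) ^ (1 / 2 + δ))⁻¹).symm
    _ = (F * B + (l + 1)) * (N : ℝ) ^ (1 - θ / 2 + 2 * δ) *
        (∑ u ∈ A, ((u : ℝ) ^ (1 / 2 + δ))⁻¹) ^ (l + 1) := by
        rw [Finset.prod_const, Finset.card_univ, Fintype.card_fin]
    _ ≤ (F * B + (l + 1)) * (N : ℝ) ^ (1 - θ / 2 + ε) * K ^ (l + 1) := by
        refine mul_le_mul ?_ ?_ (pow_nonneg (sum_nonneg fun _ _ => by positivity) _) (by positivity)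
        · refine mul_le_mul_of_nonneg_left ?_ (by positivity)
          exact Real.rpow_le_rpow_of_exponent_le hN1 (by linarith)
        · refine pow_le_pow_left₀ (sum_nonneg fun _ _ => by positivity) (hK A ?_) _
          intro u hu
          exact (mem_filter.1 hu).2
    _ = _ := by ring

theorem except_count (l : ℕ) {B θ ε : ℝ} (hB : 1 ≤ B) (hθ0 : 0 ≤ θ) (hθ : θ ≤ 2 / 3)
    (hε : 0 < ε) : ∃ C : ℝ, 0 ≤ C ∧ ∀ N : ℕ, 1 ≤ N → ∀ S : Finset ℕ,
      (∀ n ∈ S, 1 ≤ n ∧ n ≤ N ∧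
        (n : ℝ) ^ θ ≤ B * ∏ i ∈ range (l + 1), (powPart (n + i) : ℝ)) →
      (S.card : ℝ) ≤ C * (N : ℝ) ^ (1 - θ / 2 + ε) := by
  obtain ⟨C, hC, h⟩ := except_gen l hB hθ0 (by linarith) hε
  exact ⟨C, hC, fun N hN S hS => h N hN S fun n hn => ⟨(hS n hn).1, (hS n hn).2.1,
    choice_n hB hθ0 hθ (hS n hn).1 (hS n hn).2.2⟩⟩

/-- the largest factor -/
theorem choice_max {l n : ℕ} {B θ : ℝ} (hB : 1 ≤ B) (hθ0 : 0 ≤ θ) (hθ : θ ≤ l + 1) (hn : 1 ≤ n)
    (h : (n : ℝ) ^ θ ≤ B * ∏ i ∈ range (l + 1), (powPart (n + i) : ℝ)) :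
    ∃ I ⊆ range (l + 1), (n : ℝ) ^ (θ / (l + 1)) ≤ B * ∏ i ∈ I, (powPart (n + i) : ℝ) ∧
      ∏ i ∈ I, (powPart (n + i) : ℝ) ≤ (l + 1) * (n : ℝ) ^ (2 - θ / (l + 1)) := by
  have hn1 : (1 : ℝ) ≤ n := by exact_mod_cast hn
  have hl1 : (1 : ℝ) ≤ (l : ℝ) + 1 := by linarith [Nat.cast_nonneg (α := ℝ) l]
  have hθ1 : θ / ((l : ℝ) + 1) ≤ 1 := by
    rw [div_le_one (by linarith)]
    exact hθ
  obtain ⟨i, hi, hmax⟩ := Finset.exists_max_image (range (l + 1)) (fun i => powPart (n + i))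
    ⟨0, by simp⟩
  refine ⟨{i}, by simpa using hi, ?_, ?_⟩
  · rw [prod_singleton]
    have h1 : ∏ j ∈ range (l + 1), (powPart (n + j) : ℝ) ≤ (powPart (n + i) : ℝ) ^ (l + 1) := by
      calc ∏ j ∈ range (l + 1), (powPart (n + j) : ℝ) ≤ ∏ _j ∈ range (l + 1), (powPart (n + i) : ℝ) :=
            Finset.prod_le_prod (fun j _ => Nat.cast_nonneg _)
              fun j hj => by exact_mod_cast hmax j hj
        _ = _ := by rw [prod_const, card_range]
    have hu1 : (1 : ℝ) ≤ powPart (n + i) := by exact_mod_cast powPart_pos (n + i)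
    have h2 : (n : ℝ) ^ θ ≤ (B * powPart (n + i)) ^ (l + 1) := by
      rw [mul_pow]
      refine h.trans (mul_le_mul (le_self_pow₀ hB (by omega)) h1 ?_ (by positivity))
      exact Finset.prod_nonneg fun j _ => Nat.cast_nonneg _
    have h3 : ((n : ℝ) ^ (θ / (l + 1))) ^ (l + 1) ≤ (B * powPart (n + i)) ^ (l + 1) := by
      refine le_of_eq_of_le ?_ h2
      rw [← Real.rpow_natCast, ← Real.rpow_mul (by linarith)]
      congr 1
      push_cast
      field_simp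
    exact le_of_pow_le_pow_left₀ (by omega) (by positivity) h3
  · rw [prod_singleton]
    have hi' := mem_range.1 hi
    have a1 : powPart (n + i) ≤ n + i := Nat.le_of_dvd (by omega) (powPart_dvd (by omega))
    have a2 : n + i ≤ (l + 1) * n := by nlinarith
    calc (powPart (n + i) : ℝ) ≤ ((l : ℝ) + 1) * n := by exact_mod_cast a1.trans a2
      _ ≤ _ := by
        refine mul_le_mul_of_nonneg_left ?_ (by linarith)
        calc (n : ℝ) = (n : ℝ) ^ (1 : ℝ) := (Real.rpow_one _).symm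
          _ ≤ _ := Real.rpow_le_rpow_of_exponent_le hn1 (by linarith)

theorem except_max (l : ℕ) {B θ ε : ℝ} (hB : 1 ≤ B) (hθ0 : 0 ≤ θ) (hθ : θ ≤ l + 1)
    (hε : 0 < ε) : ∃ C : ℝ, 0 ≤ C ∧ ∀ N : ℕ, 1 ≤ N → ∀ S : Finset ℕ,
      (∀ n ∈ S, 1 ≤ n ∧ n ≤ N ∧
        (n : ℝ) ^ θ ≤ B * ∏ i ∈ range (l + 1), (powPart (n + i) : ℝ)) →
      (S.card : ℝ) ≤ C * (N : ℝ) ^ (1 - θ / (2 * (l + 1)) + ε) := by
  have hl1 : (1 : ℝ) ≤ (l : ℝ) + 1 := by linarith [Nat.cast_nonneg (α := ℝ) l]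
  obtain ⟨C, hC, h⟩ := except_gen l hB (θ := θ / (l + 1)) (by positivity)
    (by rw [div_le_one (by linarith)]; exact hθ) hε
  refine ⟨C, hC, fun N hN S hS => ?_⟩
  have := h N hN S fun n hn => ⟨(hS n hn).1, (hS n hn).2.1,
    choice_max hB hθ0 hθ (hS n hn).1 (hS n hn).2.2⟩
  have e : 1 - θ / (2 * ((l : ℝ) + 1)) + ε = 1 - θ / (l + 1) / 2 + ε := by
    rw [div_div, mul_comm]
  rw [e]
  exact this

end Pool.Agent.Run7.h585.PW
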